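import Pool.Agent.Y116.KF.Main

/-!
# Kimura's conjecture over the complex numbers and over the rational numbers

Let `K` be a perfect field and `k₀ ⊂ K` a perfect subfield, for example `ℚ ⊂ ℂ` or the prime field.
The standard conjecture D (homological and numerical equivalence agree) holds over `K` if and only if it
holds over `k₀`; and if it holds, then all Chow motives over `K` are finite-dimensional in the sense of
Kimura if and only if all Chow motives over `k₀` are. So in the presence of D the conjecture of the
problem is a statement on varieties over `ℚ`. Most complex varieties are not defined over the algebraic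
numbers; they are the very general members of families over varieties over `ℚ`.

The categories are axiomatic: `IsMotives` lists the properties that are used of Chow motives and of the
realisation (hard Lefschetz theorem), `IsExtension` the ones of the base change functor (specialisation
of cycles, Deligne's theorems on the monodromy and on invariant cycles, weight complexes), and `IsTotal`
says that the super realisation is the total cohomology.

The proof: finiteness implies that the endomorphisms which are zero on the cohomology are nilpotent
(Kimura). An endomorphism `f` of a motive `P` over `K` which is zero on the cohomology gives an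
endomorphism `h'` of a Chow motive `Q` over `k₀`, a power of which maps the cohomology into the image
of the beginning `d : Q' ⟶ Q` of a weight complex. By D the map `d` has a quasi-inverse `g` modulo
homological equivalence, so `h'^N (1 - g d)` is nilpotent over `k₀`, and it induces the same map on `P`
as `h'^N`, since `d` becomes zero there; so `f` is nilpotent. By D and nilpotence `P` is the sum of a
motive with even cohomology and a motive with odd cohomology (hard Lefschetz theorem), and the trace of
the antisymmetrizer (the symmetrizer) of a large tensor power of these is zero, so that it is zero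
on the cohomology, hence nilpotent, hence zero.
-/

set_option autoImplicit false

open CategoryTheory Limits MonoidalCategory Pretriangulated Triangulated
open Pool.Agent.Y116.MT Pool.Agent.Y112.SR Pool.Agent.Y116.KF

universe v u v' u' w

/-- **Kimura finiteness and the base field.** Let `F : C₀ ⥤ C` be the base change functor from the
motives over `k₀` to the motives over `K`. The standard conjecture D holds over `k₀` if and only if it
holds over `K`; if it holds, then all Chow motives over `k₀` are finite-dimensional in the sense of
Kimura if and only if all Chow motives over `K` are. -/
theorem Pool.Agent.Results.MP_868bb7_ag.BaseField.result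
    {C₀ : Type u'} [Category.{v'} C₀] [Preadditive C₀] [HasZeroObject C₀] [HasShift C₀ ℤ]
    [∀ n : ℤ, (shiftFunctor C₀ n).Additive] [Pretriangulated C₀] [MonoidalCategory C₀]
    [SymmetricCategory C₀] [MonoidalPreadditive C₀] [TensorTriangulated C₀]
    [RightRigidCategory C₀] [Linear ℚ C₀] [IsIdempotentComplete C₀]
    {C : Type u} [Category.{v} C] [Preadditive C] [HasZeroObject C] [HasShift C ℤ]
    [∀ n : ℤ, (shiftFunctor C n).Additive] [Pretriangulated C] [MonoidalCategory C]
    [SymmetricCategory C] [MonoidalPreadditive C] [TensorTriangulated C]
    [RightRigidCategory C] [Linear ℚ C] [IsIdempotentComplete C]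
    {E : Type w} [Field E] (R₀ : Realisation C₀ E) (R : Realisation C E)
    (S₀ : SuperRealisation C₀ E) (S : SuperRealisation C E) (hS₀ : IsTotal R₀ S₀)
    (hS : IsTotal R S) (Chow₀ : ObjectProperty C₀) (Chow : ObjectProperty C) (T₀ : C₀) (T : C)
    (hM₀ : IsMotives Chow₀ T₀ (fun _ : Unit => R₀)) (hM : IsMotives Chow T (fun _ : Unit => R))
    (F : C₀ ⥤ C) [F.Monoidal] [F.CommShift ℤ] (hE : IsExtension F Chow₀ Chow R₀ R) :
    (StandardD Chow₀ R₀ ↔ StandardD Chow R) ∧
      (StandardD Chow R → (Kimura Chow₀ ↔ Kimura Chow)) := by
  have hD : StandardD Chow₀ R₀ ↔ StandardD Chow R :=
    ⟨hE.up_D hM₀.chow hM.chow, hE.down_D⟩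
  have h := kimura_base hS₀ hS hE hM₀ hM
  exact ⟨hD, fun h1 => ⟨fun h2 => (h.1 ⟨hD.2 h1, h2⟩).2, fun h2 => (h.2 ⟨h1, h2⟩).2⟩⟩
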