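import Pool.Agent.Y97.PK.Final

/-!
# An object is Kimura-finite if its symmetric square or its exterior square is Kimura-finite

`C` is a `ℚ`-linear idempotent complete rigid symmetric monoidal category with `End 𝟙 = ℚ` and with a
symmetric monoidal additive functor to finite dimensional super vector spaces over a field, for
example the category of Chow motives over a field with a Weil cohomology.
-/

set_option autoImplicit false

open CategoryTheory Limits MonoidalCategory

namespace Pool.Agent.Results.MP_868bb7_ag.SquareKimura

open Pool.Agent.Y112.SR Pool.Agent.Y112.KD Pool.Agent.Y97.PK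

universe v u w

theorem result {C : Type u} [Category.{v} C] [Preadditive C] [Linear ℚ C] [MonoidalCategory C]
    [MonoidalPreadditive C] [MonoidalLinear ℚ C] [SymmetricCategory C] [RightRigidCategory C]
    [IsIdempotentComplete C] {K : Type w} [Field K] (R : SuperRealisation C K) (hU : UnitQ C)
    (M S : C) (hS : IsSymSquare M S ∨ IsExtSquare M S) (h : KimuraFinite S) :
    KimuraFinite M := by
  rcases hS with hS | hS
  · have hC := cplus_of_sym R hS (cplus_of_kimura R h)
    obtain ⟨i, r, hir, hri⟩ := hS
    exact kimura_sq R hU (Or.inl rfl) i r hir (by rw [hri, Pool.Agent.Y97.PK.sq, one_smul]) h hC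
  · have hC := cplus_of_ext R hS (cplus_of_kimura R h)
    obtain ⟨i, r, hir, hri⟩ := hS
    exact kimura_sq R hU (Or.inr rfl) i r hir
      (by rw [hri, Pool.Agent.Y97.PK.sq, neg_one_smul, sub_eq_add_neg]) h hC

end Pool.Agent.Results.MP_868bb7_ag.SquareKimura
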