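import Pool.Agent.Y112.KD.Main

/-!
# A nonzero tensor product is Kimura-finite only if its factors are

`C` is a `ℚ`-linear idempotent complete rigid symmetric monoidal category with `End 𝟙 = ℚ` and with a
symmetric monoidal additive functor to finite dimensional super vector spaces over a field, for
example the category of Chow motives over a field with a Weil cohomology.
-/

set_option autoImplicit false

open CategoryTheory Limits MonoidalCategory

namespace Pool.Agent.Results.MP_868bb7_ag.TensorKimura

open Pool.Agent.Y112.SR Pool.Agent.Y112.KD

universe v u w

theorem result {C : Type u} [Category.{v} C] [Preadditive C] [Linear ℚ C] [MonoidalCategory C]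
    [MonoidalPreadditive C] [MonoidalLinear ℚ C] [SymmetricCategory C] [RightRigidCategory C]
    [IsIdempotentComplete C] {K : Type w} [Field K] (R : SuperRealisation C K) (hU : UnitQ C)
    (M N : C) (h0 : ¬ IsZero (M ⊗ N)) (h : KimuraFinite (M ⊗ N)) :
    KimuraFinite M ∧ KimuraFinite N :=
  kimura_tensor R hU h h0

end Pool.Agent.Results.MP_868bb7_ag.TensorKimura
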