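import Pool.Agent.Y148.ZC.Kim

/-!
# Kimura's conjecture is a statement on zero-cycles

The finite-dimensionality conjecture of Kimura is a statement on correspondences, that is, on cycles
of dimension `d` on `X × X`, `d = dim X`, and on cycles on the powers of `X`. We show that (given the
sign conjecture, which it implies) it is equivalent to a statement on zero-cycles.

**Theorem.** For smooth projective complex varieties the following statements are equivalent.

1. All `X` are Kimura finite-dimensional; the sign conjecture holds (the projector of `H*(X)` onto
   the part of even degree is algebraic, for all `X`; it is known that this follows from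
   the finite-dimensionality).
2. Homologically trivial self-correspondences of degree zero are nilpotent; the sign conjecture
   holds.
3. For all `X`, all homologically trivial `G ∈ CH^d(X × X)` and all points (equivalently all
   zero-cycles) `x` on `X` there is an `n` such that `(G_*)^n x = 0` in `CH_0(X)`; the sign
   conjecture holds.
4. Phantoms have no zero-cycles: if `p ∈ CH^d(X × X)` is a homologically trivial idempotent, then
   `p_* CH_0(X) = 0`; and the projector onto the even cohomology is the class of an idempotent in
   `CH^d(X × X)`, for all `X`.

(1) ⟺ (2) is due to Kimura (see also André, Kahn, Jannsen); (3) ⟹ (2) and (4) ⟹ (1) are new.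

## The hypotheses

The Chow groups `C` and the cohomology `H` are given by formal properties, as in the other files. The
hypothesis `BlochSrinivas C` is the theorem of Bloch and Srinivas in the following form: let `Γ_n` be
a sequence in `CH^i(X × Y)` such that for each zero-cycle `x` on `X` we have `(Γ_n)_* x = 0` for all
large `n`. Then for some `n` the correspondence `Γ_n` is supported on `D × Y` for a divisor `D` of
`X`. Indeed the set of the points `x` such that `(Γ_n)_* x = 0` is a countable union of closed
subsets; take a point `x` outside of those subsets (for all `n`) which are not `X`; if
`(Γ_n)_* x = 0` for all `n ≥ n₀` then `(Γ_n)_* x' = 0` for all points `x'` and all `n ≥ n₀`, and the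
original theorem of Bloch and Srinivas applies. If `D_c` are the desingularizations of the components
of `D` then `Γ_n` comes from `∑ CH^(i-1)(D_c × Y)`, that is, it factors through the restrictions from
`X` to the `D_c`.

## The proof of (3) ⟹ (2)

Let `G` be homologically trivial, and assume that `G = ∑ β_a α_a` factors through varieties `D_a` of
dimension `d` (in the beginning: `D = X`). We show that `G` is nilpotent, by induction on `d`. The
matrix `M = (α_a G β_b)` of correspondences from `D_b` to `D_a` has homologically trivial entries (it
is the square of `(α_a β_b)`), and it suffices to show that it is nilpotent. It acts on the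
zero-cycles of the `D_a`; we bring it on the connected variety `P' = ∏ D_a` by
`x ↦ (o, …, x, …, o)` (points `o`) and the projections `P' → D_b`: this is compatible with
compositions, as homologically trivial correspondences of degree zero only see zero-cycles up to
multiples of `o`. We get `G' = ∑ ι_a M_ab π_b` on `P'`; it is homologically trivial, so it is locally
nilpotent on `CH_0(P')` by (3), and the correspondences `G'^n ι_b` on `D_b × P'` kill each given
zero-cycle of `D_b` for large `n`. By Bloch and Srinivas `G'^n ι_b` factors through varieties
of dimension `d - 1`, for one `n` and all `b`; so the same is true for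
`G'^(n+1) = ∑ (G'^n ι_b) (M_ab π_b)`. This is again homologically trivial (here we need `G` to be
only *homologically* trivial), and nilpotent by induction. For (4) ⟹ (1) the same induction is
applied to idempotents: if `G` is an idempotent then so is `G'`.
-/

open CategoryTheory AlgebraicGeometry

universe u v w

namespace Pool.Agent.Results.MP_868bb7_ag.ZeroCycles

open Pool.Agent.H914 Pool.Agent.W492.BB Pool.Agent.TH133 Pool.Agent.TH829.Kim
  Pool.Agent.Y148.ZC Pool.Agent.Y110

/-- Finite-dimensionality of all motives in terms of zero-cycles. -/
theorem result {k : Type u} [Field k] {𝒱 : VarClass k}
    (C : TheoryData.{u, v, 0} 𝒱 ℚ) [IsChowProj C] {K : Type w} [Field K]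
    (H : WeilTheoryData.{u, v, w} C K) [IsWeilProj H] (hcomm : GradedCommutative H)
    (hS : BlochSrinivas C) : List.TFAE [
      (∀ X : 𝒱.Obj, IsKimuraFinite C (ratFam C) X) ∧ SignConjecture H,
      Nilpotence H ∧ SignConjecture H,
      NilpotentOnZeroCycles H ∧ SignConjecture H,
      PhantomsKillZeroCycles H ∧ LiftedSign H] :=
  main hcomm hS

end Pool.Agent.Results.MP_868bb7_ag.ZeroCycles
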